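import Mathlib

open Filter Topology Set

namespace Pool.Agent.Q132.SLin

variable {Q H : Type} [NormedAddCommGroup Q] [NormedSpace ℝ Q]
  [NormedAddCommGroup H] [NormedSpace ℝ H]

/-- The `j`-th coefficient `2^{-jk}/(j+1)`. -/
noncomputable def cf (k j : ℕ) : ℝ := (1 / ((j : ℝ) + 1)) * ((1 / 2 : ℝ) ^ j) ^ k

/-- The dyadic sum `∑_j 2^{-jk}/(j+1) ψ(2^j q)`. -/
noncomputable def dy (k : ℕ) (ψ : Q → H) (q : Q) : H :=
  ∑' j : ℕ, cf k j • ψ ((2 : ℝ) ^ j • q)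

/-- `ψ` vanishes on the open ball of radius `r` and outside the closed ball of radius `R`. -/
def Ann (ψ : Q → H) (r R : ℝ) : Prop :=
  (∀ q, ‖q‖ < r → ψ q = 0) ∧ (∀ q, R < ‖q‖ → ψ q = 0)

lemma cf_nonneg (k j : ℕ) : 0 ≤ cf k j := by unfold cf; positivity

lemma norm_two_pow_smul (j : ℕ) (q : Q) : ‖(2 : ℝ) ^ j • q‖ = (2 : ℝ) ^ j * ‖q‖ := by
  rw [norm_smul]; simp

lemma dy_eq_sum {ψ : Q → H} {r R : ℝ} (h : Ann ψ r R) (k : ℕ) {q : Q} {J : ℕ}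
    (hJ : R < (2 : ℝ) ^ J * ‖q‖) :
    dy k ψ q = ∑ j ∈ Finset.range J, cf k j • ψ ((2 : ℝ) ^ j • q) := by
  unfold dy
  apply tsum_eq_sum
  intro j hj
  have hj' : J ≤ j := by simpa using hj
  rw [h.2, smul_zero]
  rw [norm_two_pow_smul]
  refine hJ.trans_le ?_
  gcongr
  norm_num

omit [NormedSpace ℝ Q] in
lemma exists_J {q : Q} (hq : q ≠ 0) (R : ℝ) : ∃ J : ℕ, R < (2 : ℝ) ^ J * (‖q‖ / 2) := by
  have hq' : 0 < ‖q‖ / 2 := by have := norm_pos_iff.2 hq; positivity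
  obtain ⟨J, hJ⟩ := pow_unbounded_of_one_lt (R / (‖q‖ / 2)) (one_lt_two (α := ℝ))
  exact ⟨J, (div_lt_iff₀ hq').1 hJ⟩

/-- Near a nonzero point the sum is finite. -/
lemma dy_eventually {ψ : Q → H} {r R : ℝ} (h : Ann ψ r R) {q : Q} (hq : q ≠ 0) :
    ∃ J : ℕ, ∀ᶠ p in 𝓝 q, ∀ k, dy k ψ p =
      ∑ j ∈ Finset.range J, cf k j • ψ ((2 : ℝ) ^ j • p) := by
  obtain ⟨J, hJ⟩ := exists_J hq R
  refine ⟨J, ?_⟩
  have hpos := norm_pos_iff.2 hq
  have hev : ∀ᶠ p in 𝓝 q, ‖q‖ / 2 < ‖p‖ :=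
    (continuous_norm.continuousAt (x := q)).eventually (lt_mem_nhds (by linarith))
  filter_upwards [hev] with p hp k
  apply dy_eq_sum h
  exact hJ.trans (by gcongr)

/-- The key bound: the dyadic sum is `o(‖q‖^k)`. -/
lemma dy_bound {ψ : Q → H} {r R : ℝ} (hr : 0 < r) (h : Ann ψ r R) {M : ℝ}
    (hM : ∀ q, ‖ψ q‖ ≤ M) (k : ℕ) {ε : ℝ} (hε : 0 < ε) :
    ∃ δ : ℝ, 0 < δ ∧ ∀ q : Q, ‖q‖ < δ → ‖dy k ψ q‖ ≤ ε * ‖q‖ ^ k := by
  have hM0 : 0 ≤ M := (norm_nonneg _).trans (hM 0)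
  obtain ⟨N, hN⟩ := pow_unbounded_of_one_lt (R / r) (one_lt_two (α := ℝ))
  obtain ⟨L, hL⟩ := exists_nat_gt ((N : ℝ) * M * (1 / r) ^ k / ε)
  refine ⟨r / 2 ^ L, by positivity, ?_⟩
  intro q hq
  by_cases hq0 : q = 0
  · subst hq0
    have : dy k ψ (0 : Q) = 0 := by
      unfold dy
      simp [h.1 0 (by simpa using hr)]
    rw [this, norm_zero]
    positivity
  have hqpos : 0 < ‖q‖ := norm_pos_iff.2 hq0
  -- the least index with `r ≤ 2^j ‖q‖`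
  have hex : ∃ j : ℕ, r ≤ (2 : ℝ) ^ j * ‖q‖ := by
    obtain ⟨J, hJ⟩ := exists_J hq0 r
    refine ⟨J, hJ.le.trans ?_⟩
    gcongr
    linarith
  classical
  set j₀ := Nat.find hex with hj₀
  have h1 : r ≤ (2 : ℝ) ^ j₀ * ‖q‖ := Nat.find_spec hex
  have h2 : ∀ j < j₀, (2 : ℝ) ^ j * ‖q‖ < r := fun j hj => not_le.1 (Nat.find_min hex hj)
  have hLj : L ≤ j₀ := by
    by_contra hcon
    push Not at hcon
    have : (2 : ℝ) ^ j₀ * ‖q‖ < r := by
      calc (2 : ℝ) ^ j₀ * ‖q‖ ≤ (2 : ℝ) ^ L * ‖q‖ := by gcongr; norm_num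
        _ < (2 : ℝ) ^ L * (r / 2 ^ L) := by gcongr
        _ = r := by field_simp
    linarith
  have hsum : dy k ψ q = ∑ j ∈ Finset.Ico j₀ (j₀ + N), cf k j • ψ ((2 : ℝ) ^ j • q) := by
    unfold dy
    apply tsum_eq_sum
    intro j hj
    rw [Finset.mem_Ico, not_and_or, not_le, not_lt] at hj
    rcases hj with hj | hj
    · rw [h.1, smul_zero]
      rw [norm_two_pow_smul]
      exact h2 j hj
    · rw [h.2, smul_zero]
      rw [norm_two_pow_smul]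
      calc R = (R / r) * r := by field_simp
        _ < 2 ^ N * r := by gcongr
        _ ≤ 2 ^ N * ((2 : ℝ) ^ j₀ * ‖q‖) := by gcongr
        _ = 2 ^ (j₀ + N) * ‖q‖ := by rw [pow_add]; ring
        _ ≤ 2 ^ j * ‖q‖ := by gcongr; norm_num
  have hterm : ∀ j ∈ Finset.Ico j₀ (j₀ + N), ‖cf k j • ψ ((2 : ℝ) ^ j • q)‖ ≤
      (1 / ((L : ℝ) + 1)) * (M * (1 / r) ^ k * ‖q‖ ^ k) := by
    intro j hj
    rw [Finset.mem_Ico] at hj
    rw [norm_smul, Real.norm_of_nonneg (cf_nonneg k j)]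
    have e1 : (1 / ((j : ℝ) + 1)) ≤ 1 / ((L : ℝ) + 1) := by
      have : (L : ℝ) ≤ j := by exact_mod_cast hLj.trans hj.1
      gcongr
    have e2 : (1 / 2 : ℝ) ^ j ≤ 1 / r * ‖q‖ := by
      have h3 : r ≤ (2 : ℝ) ^ j * ‖q‖ := by
        refine h1.trans ?_
        gcongr
        · norm_num
        · exact hj.1
      rw [one_div, inv_pow, ← one_div]
      rw [div_le_iff₀ (by positivity)]
      calc (1 : ℝ) = 1 / r * r := by field_simp
        _ ≤ 1 / r * ((2 : ℝ) ^ j * ‖q‖) := by gcongr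
        _ = 1 / r * ‖q‖ * 2 ^ j := by ring
    unfold cf
    calc 1 / ((j : ℝ) + 1) * ((1 / 2 : ℝ) ^ j) ^ k * ‖ψ ((2 : ℝ) ^ j • q)‖
        ≤ 1 / ((L : ℝ) + 1) * (1 / r * ‖q‖) ^ k * M := by
          gcongr
          exact hM _
      _ = (1 / ((L : ℝ) + 1)) * (M * (1 / r) ^ k * ‖q‖ ^ k) := by rw [mul_pow]; ring
  rw [hsum]
  calc ‖∑ j ∈ Finset.Ico j₀ (j₀ + N), cf k j • ψ ((2 : ℝ) ^ j • q)‖
      ≤ ∑ j ∈ Finset.Ico j₀ (j₀ + N), ‖cf k j • ψ ((2 : ℝ) ^ j • q)‖ := norm_sum_le _ _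
    _ ≤ ∑ j ∈ Finset.Ico j₀ (j₀ + N), (1 / ((L : ℝ) + 1)) * (M * (1 / r) ^ k * ‖q‖ ^ k) :=
        Finset.sum_le_sum hterm
    _ = (N * M * (1 / r) ^ k) / ((L : ℝ) + 1) * ‖q‖ ^ k := by
        rw [Finset.sum_const, Nat.card_Ico, nsmul_eq_mul]
        have : ((j₀ + N - j₀ : ℕ) : ℝ) = N := by
          rw [Nat.add_sub_cancel_left]
        rw [this]; ring
    _ ≤ ε * ‖q‖ ^ k := by
        gcongr
        rw [div_le_iff₀ (by positivity)]
        rw [div_lt_iff₀ hε] at hL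
        nlinarith

lemma Ann.fderiv {ψ : Q → H} {r R : ℝ} (h : Ann ψ r R) : Ann (fderiv ℝ ψ) r R := by
  constructor
  · intro q hq
    have : ψ =ᶠ[𝓝 q] fun _ => (0 : H) := by
      filter_upwards [(continuous_norm.continuousAt (x := q)).eventually (gt_mem_nhds hq)] with p hp
      exact h.1 p hp
    rw [this.fderiv_eq]; simp
  · intro q hq
    have : ψ =ᶠ[𝓝 q] fun _ => (0 : H) := by
      filter_upwards [(continuous_norm.continuousAt (x := q)).eventually (lt_mem_nhds hq)] with p hp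
      exact h.2 p hp
    rw [this.fderiv_eq]; simp

omit [NormedSpace ℝ Q] [NormedSpace ℝ H] in
lemma Ann.exists_bound [ProperSpace Q] {ψ : Q → H} {r R : ℝ} (h : Ann ψ r R)
    (hc : Continuous ψ) : ∃ M, ∀ q, ‖ψ q‖ ≤ M := by
  obtain ⟨M, hM⟩ := (isCompact_closedBall (0 : Q) R).exists_bound_of_continuousOn
    hc.continuousOn
  refine ⟨max M 0, fun q => ?_⟩
  by_cases hq : ‖q‖ ≤ R
  · exact (hM q (by simpa using hq)).trans (le_max_left _ _)
  · rw [h.2 q (not_le.1 hq), norm_zero]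
    exact le_max_right _ _

lemma dy_zero {ψ : Q → H} {r R : ℝ} (hr : 0 < r) (h : Ann ψ r R) (k : ℕ) :
    dy k ψ (0 : Q) = 0 := by
  unfold dy
  simp [h.1 0 (by simpa using hr)]

/-- The derivative of the dyadic sum away from the origin. -/
lemma hasFDerivAt_dy {ψ : Q → H} {r R : ℝ} (h : Ann ψ r R) (hψ : Differentiable ℝ ψ)
    (k : ℕ) {q : Q} (hq : q ≠ 0) :
    HasFDerivAt (dy (k + 1) ψ) (dy k (fderiv ℝ ψ) q) q := by
  obtain ⟨J, hJ⟩ := exists_J hq R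
  have hpos := norm_pos_iff.2 hq
  have hev : ∀ᶠ p in 𝓝 q, ‖q‖ / 2 < ‖p‖ :=
    (continuous_norm.continuousAt (x := q)).eventually (lt_mem_nhds (by linarith))
  have e1 : dy (k + 1) ψ =ᶠ[𝓝 q] fun p =>
      ∑ j ∈ Finset.range J, cf (k + 1) j • ψ ((2 : ℝ) ^ j • p) := by
    filter_upwards [hev] with p hp
    apply dy_eq_sum h
    exact hJ.trans (by gcongr)
  have e2 : dy k (fderiv ℝ ψ) q =
      ∑ j ∈ Finset.range J, cf k j • fderiv ℝ ψ ((2 : ℝ) ^ j • q) := by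
    apply dy_eq_sum h.fderiv
    exact hJ.trans (by gcongr; linarith)
  refine HasFDerivAt.congr_of_eventuallyEq ?_ e1
  rw [e2]
  refine HasFDerivAt.fun_sum ?_
  intro j _
  have h1 : HasFDerivAt (fun p : Q => (2 : ℝ) ^ j • p)
      ((2 : ℝ) ^ j • ContinuousLinearMap.id ℝ Q) q :=
    (hasFDerivAt_id q).const_smul _
  have h2 := ((hψ ((2 : ℝ) ^ j • q)).hasFDerivAt.comp q h1).const_smul (cf (k + 1) j)
  have h3 : cf k j • fderiv ℝ ψ ((2 : ℝ) ^ j • q) = cf (k + 1) j •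
      (fderiv ℝ ψ ((2 : ℝ) ^ j • q)).comp ((2 : ℝ) ^ j • ContinuousLinearMap.id ℝ Q) := by
    rw [ContinuousLinearMap.comp_smul, ContinuousLinearMap.comp_id, smul_smul]
    congr 1
    unfold cf
    have : ((1 / 2 : ℝ) ^ j) * 2 ^ j = 1 := by rw [← mul_pow]; norm_num
    calc 1 / ((j : ℝ) + 1) * ((1 / 2 : ℝ) ^ j) ^ k
        = 1 / ((j : ℝ) + 1) * (((1 / 2 : ℝ) ^ j) ^ k * (((1 / 2 : ℝ) ^ j) * 2 ^ j)) := by
          rw [this, mul_one]
      _ = _ := by rw [pow_succ]; ring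
  rw [h3]
  exact h2

/-- The dyadic sum has zero derivative at the origin. -/
lemma hasFDerivAt_dy_zero {ψ : Q → H} {r R : ℝ} (hr : 0 < r) (h : Ann ψ r R) {M : ℝ}
    (hM : ∀ q, ‖ψ q‖ ≤ M) (k : ℕ) :
    HasFDerivAt (dy (k + 1) ψ) (0 : Q →L[ℝ] H) 0 := by
  rw [hasFDerivAt_iff_isLittleO_nhds_zero]
  simp only [zero_add, dy_zero hr h, sub_zero, zero_apply]
  rw [Asymptotics.isLittleO_iff]
  intro ε hε
  obtain ⟨δ, hδ, hb⟩ := dy_bound hr h hM (k + 1) hε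
  filter_upwards [Metric.ball_mem_nhds (0 : Q) (lt_min hδ one_pos)] with q hq
  rw [Metric.mem_ball, dist_zero_right] at hq
  refine (hb q (hq.trans_le (min_le_left _ _))).trans ?_
  gcongr
  have hq1 : ‖q‖ ≤ 1 := (hq.trans_le (min_le_right _ _)).le
  rw [pow_succ]
  exact mul_le_of_le_one_left (norm_nonneg _) (pow_le_one₀ (norm_nonneg _) hq1)

/-- The dyadic sum is `C^k`. -/
theorem contDiff_dy [ProperSpace Q] {r R : ℝ} (hr : 0 < r) (k : ℕ) :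
    ∀ {H : Type} [NormedAddCommGroup H] [NormedSpace ℝ H] {ψ : Q → H},
      ContDiff ℝ k ψ → Ann ψ r R → ContDiff ℝ k (dy k ψ) := by
  induction k with
  | zero =>
    intro H _ _ ψ hψ h
    rw [Nat.cast_zero, contDiff_zero] at hψ ⊢
    rw [continuous_iff_continuousAt]
    intro q
    by_cases hq : q = 0
    · subst hq
      obtain ⟨M, hM⟩ := h.exists_bound hψ
      unfold ContinuousAt
      rw [dy_zero hr h, Metric.tendsto_nhds]
      intro ε hε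
      obtain ⟨δ, hδ, hb⟩ := dy_bound hr h hM 0 (half_pos hε)
      filter_upwards [Metric.ball_mem_nhds (0 : Q) hδ] with q hq
      rw [Metric.mem_ball, dist_zero_right] at hq
      rw [dist_zero_right]
      have := hb q hq
      rw [pow_zero, mul_one] at this
      linarith
    · obtain ⟨J, hJ⟩ := dy_eventually h hq
      have e : dy 0 ψ =ᶠ[𝓝 q] fun p => ∑ j ∈ Finset.range J, cf 0 j • ψ ((2 : ℝ) ^ j • p) := by
        filter_upwards [hJ] with p hp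
        exact hp 0
      refine ContinuousAt.congr ?_ e.symm
      apply Continuous.continuousAt
      fun_prop
  | succ k ih =>
    intro H _ _ ψ hψ h
    rw [Nat.cast_succ, contDiff_succ_iff_hasFDerivAt]
    rw [Nat.cast_succ] at hψ
    have hd : Differentiable ℝ ψ := hψ.differentiable (by simp)
    refine ⟨dy k (fderiv ℝ ψ), ih (hψ.fderiv_right le_rfl) h.fderiv, ?_⟩
    intro q
    by_cases hq : q = 0
    · subst hq
      rw [dy_zero hr h.fderiv]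
      obtain ⟨M, hM⟩ := h.exists_bound hψ.continuous
      exact hasFDerivAt_dy_zero hr h hM k
    · exact hasFDerivAt_dy h hd k hq

end Pool.Agent.Q132.SLin
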