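import Mathlib
import Pool.Agent.Q132.SLin.Dyadic

open Filter Topology Set Matrix

namespace Pool.Agent.Q132.SLin

/-- `X = ℝ^n` with coordinates. -/
abbrev X (n : ℕ) : Type := Fin n → ℝ

/-- `Q = ℝ^n × ℝ`. -/
abbrev QQ (n : ℕ) : Type := X n × ℝ

/-- The group `SL(n,ℝ)`. -/
abbrev SLn (n : ℕ) : Type := Matrix.SpecialLinearGroup (Fin n) ℝ

/-- The bump function. -/
noncomputable def bmp (n : ℕ) : ContDiffBump (0 : QQ n) := ⟨1, 2, one_pos, one_lt_two⟩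

/-- `ψ(x,y) = y^k χ(x,y)`. -/
noncomputable def psi (n k : ℕ) (q : QQ n) : ℝ := q.2 ^ k * bmp n q

/-- `f = ∑_j 2^{-jk}/(j+1) ψ(2^j ·)`. -/
noncomputable def ff (n k : ℕ) : QQ n → ℝ := dy k (psi n k)

/-- The linear action of `SL(n,ℝ)` on `ℝ^n × ℝ`. -/
noncomputable def gq {n : ℕ} (g : SLn n) : QQ n →L[ℝ] QQ n :=
  ((LinearMap.toContinuousLinearMap (Matrix.mulVecLin g.1)).comp
    (ContinuousLinearMap.fst ℝ (X n) ℝ)).prod (ContinuousLinearMap.snd ℝ (X n) ℝ)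

@[simp] lemma gq_apply {n : ℕ} (g : SLn n) (q : QQ n) : gq g q = (g.1 *ᵥ q.1, q.2) := rfl

lemma gq_one {n : ℕ} (q : QQ n) : gq (1 : SLn n) q = q := by
  simp

lemma gq_mul {n : ℕ} (g h : SLn n) (q : QQ n) : gq (g * h) q = gq g (gq h q) := by
  simp [Matrix.mulVec_mulVec]

lemma contDiff_psi (n k : ℕ) {m : ℕ∞} : ContDiff ℝ m (psi n k) := by
  unfold psi
  exact (contDiff_snd.pow k).mul (bmp n).contDiff

lemma psi_far (n k : ℕ) (q : QQ n) (hq : 2 < ‖q‖) : psi n k q = 0 := by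
  unfold psi
  rw [(bmp n).zero_of_le_dist, mul_zero]
  rw [dist_zero_right]
  exact hq.le

lemma psi_near (n k : ℕ) (q : QQ n) (hq : ‖q‖ ≤ 1) : psi n k q = q.2 ^ k := by
  unfold psi
  rw [(bmp n).one_of_mem_closedBall, mul_one]
  rw [mem_closedBall_zero_iff]
  exact hq

lemma ann_psi (n k : ℕ) : Ann (psi n k) 0 2 :=
  ⟨fun q hq => absurd hq (not_lt.2 (norm_nonneg q)), psi_far n k⟩

lemma exists_psi_bound (n k : ℕ) : ∃ M, 0 ≤ M ∧ ∀ q, ‖psi n k q‖ ≤ M := by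
  obtain ⟨M, hM⟩ := (ann_psi n k).exists_bound (contDiff_psi n k (m := 0)).continuous
  exact ⟨M, (norm_nonneg _).trans (hM 0), hM⟩

lemma cf_le {k : ℕ} (hk : 1 ≤ k) (j : ℕ) : cf k j ≤ (1 / 2 : ℝ) ^ j := by
  unfold cf
  have h1 : 1 / ((j : ℝ) + 1) ≤ 1 := by
    rw [div_le_one (by positivity)]
    linarith [(Nat.cast_nonneg j : (0 : ℝ) ≤ j)]
  have h2 : ((1 / 2 : ℝ) ^ j) ^ k ≤ (1 / 2 : ℝ) ^ j := by
    apply pow_le_of_le_one (by positivity) (pow_le_one₀ (by norm_num) (by norm_num)) (by omega)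
  calc _ ≤ 1 * (1 / 2 : ℝ) ^ j := by gcongr
    _ = _ := one_mul _

lemma summable_geo (M : ℝ) : Summable fun j : ℕ => (1 / 2 : ℝ) ^ j * M :=
  (summable_geometric_of_lt_one (by norm_num) (by norm_num)).mul_right M

lemma summable_psi (n : ℕ) {k : ℕ} (hk : 1 ≤ k) (l : ℕ) (q : QQ n) :
    Summable fun j : ℕ => cf k j • psi n l ((2 : ℝ) ^ j • q) := by
  obtain ⟨M, hM0, hM⟩ := exists_psi_bound n l
  refine Summable.of_norm_bounded (summable_geo M) fun j => ?_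
  rw [norm_smul, Real.norm_of_nonneg (cf_nonneg k j)]
  exact mul_le_mul (cf_le hk j) (hM _) (norm_nonneg _) (by positivity)

lemma continuous_dy_psi (n : ℕ) {k : ℕ} (hk : 1 ≤ k) (l : ℕ) : Continuous (dy k (psi n l)) := by
  obtain ⟨M, hM0, hM⟩ := exists_psi_bound n l
  unfold dy
  refine continuous_tsum (u := fun j => (1 / 2 : ℝ) ^ j * M) ?_ (summable_geo M) ?_
  · intro j
    have := (contDiff_psi n l (m := 0)).continuous
    fun_prop
  · intro j q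
    rw [norm_smul, Real.norm_of_nonneg (cf_nonneg k j)]
    exact mul_le_mul (cf_le hk j) (hM _) (norm_nonneg _) (by positivity)

lemma continuous_ff (n : ℕ) {k : ℕ} (hk : 1 ≤ k) : Continuous (ff n k) :=
  continuous_dy_psi n hk k

lemma psi_zero (n : ℕ) {k : ℕ} (hk : 1 ≤ k) : psi n k 0 = 0 := by
  unfold psi
  simp [show k ≠ 0 by omega]

lemma ff_zero (n : ℕ) {k : ℕ} (hk : 1 ≤ k) : ff n k 0 = 0 := by
  unfold ff dy
  simp [psi_zero n hk]

/-- The cocycle `c_g(q) = f(gq) - f(q)`. -/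
noncomputable def cc (n k : ℕ) (g : SLn n) (q : QQ n) : ℝ := ff n k (gq g q) - ff n k q

lemma cc_eq (n : ℕ) {k : ℕ} (hk : 1 ≤ k) (g : SLn n) :
    cc n k g = dy k (fun q => psi n k (gq g q) - psi n k q) := by
  funext q
  unfold cc ff
  have h1 := summable_psi n hk k (gq g q)
  have h2 := summable_psi n hk k q
  unfold dy
  rw [← h1.tsum_sub h2]
  congr 1
  funext j
  rw [← smul_sub]
  beta_reduce
  rw [map_smul]

lemma ann_cc (n k : ℕ) (g : SLn n) :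
    ∃ r R : ℝ, 0 < r ∧ Ann (fun q => psi n k (gq g q) - psi n k q) r R := by
  refine ⟨1 / (‖gq g‖ + 1), 2 * (‖gq g⁻¹‖ + 1), by positivity, ?_, ?_⟩
  · intro q hq
    have hq1 : ‖q‖ ≤ 1 := by
      refine hq.le.trans ?_
      rw [div_le_one (by positivity)]
      linarith [norm_nonneg (gq g)]
    have hq2 : ‖gq g q‖ ≤ 1 := by
      refine ((gq g).le_opNorm q).trans ?_
      calc ‖gq g‖ * ‖q‖ ≤ (‖gq g‖ + 1) * (1 / (‖gq g‖ + 1)) := by gcongr; linarith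
        _ = 1 := by field_simp
    beta_reduce
    rw [psi_near n k _ hq1, psi_near n k _ hq2]
    simp
  · intro q hq
    have hq1 : 2 < ‖q‖ := by
      refine lt_of_le_of_lt ?_ hq
      nlinarith [norm_nonneg (gq g⁻¹)]
    have hq2 : 2 < ‖gq g q‖ := by
      by_contra hcon
      push Not at hcon
      have : ‖q‖ ≤ ‖gq g⁻¹‖ * ‖gq g q‖ := by
        calc ‖q‖ = ‖gq g⁻¹ (gq g q)‖ := by
              rw [← gq_mul, inv_mul_cancel, gq_one]
          _ ≤ _ := (gq g⁻¹).le_opNorm _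
      have h2 : ‖gq g⁻¹‖ * ‖gq g q‖ ≤ ‖gq g⁻¹‖ * 2 := by gcongr
      linarith
    beta_reduce
    rw [psi_far n k _ hq1, psi_far n k _ hq2]
    simp

lemma contDiff_cc (n : ℕ) {k : ℕ} (hk : 1 ≤ k) (g : SLn n) : ContDiff ℝ k (cc n k g) := by
  obtain ⟨r, R, hr, hA⟩ := ann_cc n k g
  rw [cc_eq n hk]
  refine contDiff_dy hr k ?_ hA
  have h := contDiff_psi n k (m := k)
  exact (ContDiff.comp (g := psi n k) h (gq g).contDiff).sub h

lemma hasFDerivAt_cc (n : ℕ) {k : ℕ} (hk : 1 ≤ k) (g : SLn n) :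
    HasFDerivAt (cc n k g) (0 : QQ n →L[ℝ] ℝ) 0 := by
  obtain ⟨r, R, hr, hA⟩ := ann_cc n k g
  obtain ⟨l, rfl⟩ : ∃ l, k = l + 1 := ⟨k - 1, by omega⟩
  rw [cc_eq n hk]
  have h := contDiff_psi n (l + 1) (m := 0)
  have hc : Continuous (fun q => psi n (l + 1) (gq g q) - psi n (l + 1) q) :=
    (h.continuous.comp (gq g).continuous).sub h.continuous
  obtain ⟨M, hM⟩ := hA.exists_bound hc
  exact hasFDerivAt_dy_zero hr hA hM l

lemma cc_one (n k : ℕ) (q : QQ n) : cc n k 1 q = 0 := by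
  unfold cc; rw [gq_one, sub_self]

lemma cc_mul (n k : ℕ) (g h : SLn n) (q : QQ n) :
    cc n k (g * h) q = cc n k h q + cc n k g (gq h q) := by
  unfold cc; rw [gq_mul]; ring

lemma cc_zero (n k : ℕ) (g : SLn n) : cc n k g 0 = 0 := by
  unfold cc; rw [map_zero, sub_self]

/-- Away from the origin `f` is smooth. -/
lemma contDiffAt_ff (n k : ℕ) {q : QQ n} (hq : q ≠ 0) : ContDiffAt ℝ k (ff n k) q := by
  obtain ⟨J, hJ⟩ := dy_eventually (ann_psi n k) hq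
  have e : ff n k =ᶠ[𝓝 q] fun p => ∑ j ∈ Finset.range J, cf k j • psi n k ((2 : ℝ) ^ j • p) := by
    filter_upwards [hJ] with p hp
    exact hp k
  refine ContDiffAt.congr_of_eventuallyEq ?_ e
  apply ContDiff.contDiffAt
  refine ContDiff.sum fun j _ => ?_
  have h1 : ContDiff ℝ k (fun p : QQ n => (2 : ℝ) ^ j • p) := contDiff_id.const_smul _
  have h2 : ContDiff ℝ k (fun p : QQ n => psi n k ((2 : ℝ) ^ j • p)) :=
    ContDiff.comp (g := psi n k) (contDiff_psi n k (m := k)) h1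
  exact h2.const_smul (cf k j)

end Pool.Agent.Q132.SLin
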