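import Mathlib
import Pool.Agent.Q132.SLin.Model

open Filter Topology Set Asymptotics

namespace Pool.Agent.Q132.SLin

/-- A polynomial that is `o(x^m)` at `0` is divisible by `X^{m+1}`. -/
lemma dvd_of_isLittleO (m : ℕ) : ∀ P : Polynomial ℝ,
    (fun x : ℝ => P.eval x) =o[𝓝[>] 0] (fun x => x ^ m) → Polynomial.X ^ (m + 1) ∣ P := by
  induction m with
  | zero =>
    intro P h
    simp only [pow_zero, isLittleO_one_iff] at h
    have h2 : Tendsto (fun x : ℝ => P.eval x) (𝓝[>] 0) (𝓝 (P.eval 0)) :=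
      (P.continuous.continuousAt (x := (0 : ℝ))).tendsto.mono_left nhdsWithin_le_nhds
    have h3 : P.eval 0 = 0 := tendsto_nhds_unique h2 h
    rw [zero_add, pow_one, Polynomial.X_dvd_iff, Polynomial.coeff_zero_eq_eval_zero, h3]
  | succ m ih =>
    intro P h
    have h0 : (fun x : ℝ => P.eval x) =o[𝓝[>] 0] (fun x => x ^ 0) := by
      refine h.trans_isBigO ?_
      rw [isBigO_iff]
      refine ⟨1, ?_⟩
      have : ∀ᶠ x : ℝ in 𝓝[>] 0, x ∈ Ioo (0 : ℝ) 1 := Ioo_mem_nhdsGT one_pos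
      filter_upwards [this] with x hx
      simp only [pow_zero, norm_one, mul_one, norm_pow, Real.norm_eq_abs]
      rw [abs_of_pos hx.1]
      exact pow_le_one₀ hx.1.le hx.2.le
    have hX : Polynomial.X ∣ P := by
      simp only [pow_zero, isLittleO_one_iff] at h0
      have h2 : Tendsto (fun x : ℝ => P.eval x) (𝓝[>] 0) (𝓝 (P.eval 0)) :=
        (P.continuous.continuousAt (x := (0 : ℝ))).tendsto.mono_left nhdsWithin_le_nhds
      have h3 : P.eval 0 = 0 := tendsto_nhds_unique h2 h0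
      rw [Polynomial.X_dvd_iff, Polynomial.coeff_zero_eq_eval_zero, h3]
    obtain ⟨R, rfl⟩ := hX
    have hR : (fun x : ℝ => R.eval x) =o[𝓝[>] 0] (fun x => x ^ m) := by
      rw [isLittleO_iff] at h ⊢
      intro c hc
      filter_upwards [h hc, self_mem_nhdsWithin] with x hx hx0
      have hx0' : (0 : ℝ) < x := hx0
      simp only [Polynomial.eval_mul, Polynomial.eval_X, norm_mul, norm_pow,
        Real.norm_eq_abs] at hx ⊢
      rw [abs_of_pos hx0'] at hx ⊢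
      rw [pow_succ] at hx
      have : x * |Polynomial.eval x R| ≤ x * (c * x ^ m) := by
        calc _ ≤ _ := hx
          _ = _ := by ring
      exact le_of_mul_le_mul_left this hx0'
    have := ih R hR
    rw [pow_succ, mul_comm _ Polynomial.X]
    exact mul_dvd_mul_left _ this

/-- If `F` is `C^k` at `0` and `F(x) = o(x^{k-1})` as `x → 0+`, then `F(x) = O(x^k)`. -/
lemma isBigO_of_contDiffAt {F : ℝ → ℝ} {k : ℕ} (hF : ContDiffAt ℝ (k + 1 : ℕ) F 0)
    (h : F =o[𝓝[>] 0] (fun x => x ^ k)) : F =O[𝓝[>] 0] (fun x => x ^ (k + 1)) := by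
  obtain ⟨u, hu, hFu⟩ : ∃ u ∈ 𝓝 (0 : ℝ), ContDiffOn ℝ (k + 1 : ℕ) F u := by
    exact hF.contDiffOn' (m := (k + 1 : ℕ)) le_rfl (by simp) |>.imp
      fun u hu => ⟨by simpa using hu.1.mem_nhds hu.2.1, by simpa using hu.2.2⟩
  obtain ⟨δ, hδ, hball⟩ := Metric.mem_nhds_iff.1 hu
  have hT := taylor_isLittleO (convex_ball (0 : ℝ) δ) (Metric.mem_ball_self hδ)
    (hFu.mono hball)
  set a : ℕ → ℝ := fun i => ((Nat.factorial i : ℝ)⁻¹) *
    iteratedDerivWithin i F (Metric.ball (0 : ℝ) δ) 0 with ha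
  set P : Polynomial ℝ := ∑ i ∈ Finset.range (k + 1 + 1), Polynomial.C (a i) * Polynomial.X ^ i
    with hP
  have hPe : ∀ x, taylorWithinEval F (k + 1) (Metric.ball (0 : ℝ) δ) 0 x = P.eval x := by
    intro x
    rw [taylor_within_apply, hP, Polynomial.eval_finsetSum]
    apply Finset.sum_congr rfl
    intro i _
    simp only [sub_zero, smul_eq_mul, Polynomial.eval_mul, Polynomial.eval_C,
      Polynomial.eval_pow, Polynomial.eval_X, ha]
    ring
  have hT' : (fun x => F x - P.eval x) =o[𝓝[>] 0] (fun x : ℝ => x ^ (k + 1)) := by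
    have h1 : 𝓝[>] (0 : ℝ) ≤ 𝓝[Metric.ball (0 : ℝ) δ] 0 := by
      rw [nhdsWithin_eq_nhds.2 (Metric.ball_mem_nhds _ hδ)]
      exact nhdsWithin_le_nhds
    have h2 := hT.mono h1
    simp only [hPe, sub_zero] at h2
    exact h2
  have hpow : (fun x : ℝ => x ^ (k + 1)) =O[𝓝[>] 0] (fun x : ℝ => x ^ k) := by
    rw [isBigO_iff]
    refine ⟨1, ?_⟩
    have : ∀ᶠ x : ℝ in 𝓝[>] 0, x ∈ Ioo (0 : ℝ) 1 := Ioo_mem_nhdsGT one_pos
    filter_upwards [this] with x hx
    rw [one_mul, norm_pow, norm_pow, Real.norm_eq_abs, abs_of_pos hx.1, pow_succ]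
    exact mul_le_of_le_one_right (by positivity [hx.1]) hx.2.le
  have hPo : (fun x : ℝ => P.eval x) =o[𝓝[>] 0] (fun x => x ^ k) := by
    have h3 := h.sub (hT'.trans_isBigO hpow)
    simpa using h3
  obtain ⟨R, hR⟩ := dvd_of_isLittleO k P hPo
  have hPO : (fun x : ℝ => P.eval x) =O[𝓝[>] 0] (fun x => x ^ (k + 1)) := by
    have hRb : (fun x : ℝ => R.eval x) =O[𝓝[>] 0] (fun _ => (1 : ℝ)) :=
      ((R.continuous.continuousAt (x := (0 : ℝ))).tendsto.mono_left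
        nhdsWithin_le_nhds).isBigO_one ℝ
    have h4 := (isBigO_refl (fun x : ℝ => x ^ (k + 1)) (𝓝[>] 0)).mul hRb
    rw [hR]
    simpa using h4
  have h5 := hT'.isBigO.add hPO
  simpa using h5

lemma norm_pair (n : ℕ) (s : ℝ) : ‖((0 : X n), s)‖ = |s| := by
  rw [Prod.norm_def]; simp

lemma psi_line (n k : ℕ) (s : ℝ) (j : ℕ) :
    psi n k ((2 : ℝ) ^ j • ((0 : X n), s)) = ((2 : ℝ) ^ j * s) ^ k *
      bmp n ((2 : ℝ) ^ j • ((0 : X n), s)) := by
  unfold psi; simp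

lemma ff_line (n k : ℕ) (s : ℝ) :
    ff n (k + 1) ((0 : X n), s) = s ^ k * dy 1 (psi n 1) ((0 : X n), s) := by
  unfold ff dy
  rw [← tsum_mul_left]
  congr 1
  funext j
  rw [psi_line, psi_line]
  unfold cf
  simp only [smul_eq_mul]
  have : ((1 / 2 : ℝ) ^ j) ^ k * (2 ^ j) ^ k = 1 := by
    rw [← mul_pow, ← mul_pow]; norm_num
  calc 1 / ((j : ℝ) + 1) * ((1 / 2 : ℝ) ^ j) ^ (k + 1) *
        ((2 ^ j * s) ^ (k + 1) * bmp n ((2 : ℝ) ^ j • ((0 : X n), s)))
      = (((1 / 2 : ℝ) ^ j) ^ k * (2 ^ j) ^ k) * (1 / ((j : ℝ) + 1) * ((1 / 2 : ℝ) ^ j) *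
        (s ^ k * ((2 ^ j * s) * bmp n ((2 : ℝ) ^ j • ((0 : X n), s))))) := by
        rw [mul_pow]; ring
    _ = _ := by rw [this]; ring

lemma ff_line_isLittleO (n k : ℕ) :
    (fun s : ℝ => ff n (k + 1) ((0 : X n), s)) =o[𝓝[>] 0] (fun s => s ^ k) := by
  have h1 : Tendsto (fun s : ℝ => dy 1 (psi n 1) ((0 : X n), s)) (𝓝[>] 0) (𝓝 0) := by
    have hc : Continuous (fun s : ℝ => dy 1 (psi n 1) ((0 : X n), s)) :=
      (continuous_dy_psi n le_rfl 1).comp (by fun_prop)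
    have := (hc.continuousAt (x := (0 : ℝ))).tendsto
    have h0 : dy 1 (psi n 1) ((0 : X n), (0 : ℝ)) = 0 := by
      have := ff_zero n (k := 1) le_rfl
      unfold ff at this
      exact this
    rw [h0] at this
    exact this.mono_left nhdsWithin_le_nhds
  have h2 := (isBigO_refl (fun s : ℝ => s ^ k) (𝓝[>] 0)).mul_isLittleO
    ((isLittleO_one_iff ℝ).2 h1)
  simpa [ff_line] using h2

lemma ff_line_ge (n k : ℕ) (J : ℕ) {s : ℝ} (hs : 0 < s) (hsJ : (2 : ℝ) ^ J * s ≤ 1) :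
    s ^ (k + 1) * ∑ j ∈ Finset.range J, 1 / ((j : ℝ) + 1) ≤ ff n (k + 1) ((0 : X n), s) := by
  unfold ff dy
  rw [Finset.mul_sum]
  have hsum := summable_psi n (k := k + 1) (by omega) (k + 1) ((0 : X n), s)
  refine le_trans ?_ (hsum.sum_le_tsum (Finset.range J) ?_)
  · apply Finset.sum_le_sum
    intro j hj
    rw [Finset.mem_range] at hj
    have hn : ‖(2 : ℝ) ^ j • ((0 : X n), s)‖ ≤ 1 := by
      rw [norm_two_pow_smul, norm_pair, abs_of_pos hs]
      refine le_trans ?_ hsJ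
      gcongr
      norm_num
    rw [psi_near n _ _ hn]
    unfold cf
    have : ((1 / 2 : ℝ) ^ j) ^ (k + 1) * (2 ^ j) ^ (k + 1) = 1 := by
      rw [← mul_pow, ← mul_pow]; norm_num
    simp only [Prod.smul_snd, smul_eq_mul]
    rw [mul_pow]
    apply le_of_eq
    calc s ^ (k + 1) * (1 / ((j : ℝ) + 1))
        = (((1 / 2 : ℝ) ^ j) ^ (k + 1) * (2 ^ j) ^ (k + 1)) *
          (s ^ (k + 1) * (1 / ((j : ℝ) + 1))) := by rw [this, one_mul]
      _ = _ := by ring
  · intro j _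
    rw [psi_line, smul_eq_mul]
    have := (bmp n).nonneg (x := (2 : ℝ) ^ j • ((0 : X n), s))
    have := cf_nonneg (k + 1) j
    positivity

theorem not_contDiffAt_ff (n : ℕ) {k : ℕ} (hk : 1 ≤ k) :
    ¬ ContDiffAt ℝ k (fun s : ℝ => ff n k ((0 : X n), s)) 0 := by
  obtain ⟨l, rfl⟩ : ∃ l, k = l + 1 := ⟨k - 1, by omega⟩
  intro h
  have hO := isBigO_of_contDiffAt h (ff_line_isLittleO n l)
  rw [isBigO_iff] at hO
  obtain ⟨C, hC⟩ := hO
  obtain ⟨J, hJ⟩ := (Real.tendsto_sum_range_one_div_nat_succ_atTop.eventually_gt_atTop C).exists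
  have h1 : ∀ᶠ s : ℝ in 𝓝[>] 0, s ∈ Ioo (0 : ℝ) (1 / 2 ^ J) := Ioo_mem_nhdsGT (by positivity)
  obtain ⟨s, hs1, hs2⟩ := (hC.and h1).exists
  have hs0 : 0 < s := hs2.1
  have h3 := ff_line_ge n l J hs0 (by
    have := hs2.2.le
    rw [le_div_iff₀ (by positivity)] at this
    linarith)
  rw [norm_pow, Real.norm_eq_abs, Real.norm_eq_abs, abs_of_pos hs0] at hs1
  have h4 := (le_abs_self _).trans hs1
  have h5 : 0 < s ^ (l + 1) := by positivity
  have h6 := h3.trans h4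
  rw [mul_comm] at h6
  have := le_of_mul_le_mul_right h6 h5
  linarith

end Pool.Agent.Q132.SLin
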