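import Mathlib
import Pool.Agent.Q132.SLin.OneDim

open Filter Topology Set Matrix

namespace Pool.Agent.Q132.SLin

variable {T : Type} [NormedAddCommGroup T] [NormedSpace ℝ T]

/-- The model map `(x,τ) ↦ (gx, τ + (f(gx,η τ) - f(x,η τ)) v)`. -/
noncomputable def Am {n : ℕ} (k : ℕ) (η : T →L[ℝ] ℝ) (v : T) (g : SLn n) (p : X n × T) :
    X n × T := (g.1 *ᵥ p.1, p.2 + cc n k g (p.1, η p.2) • v)

/-- The change of coordinates `(x,τ) ↦ (x, τ + f(x,η τ) v)`. -/
noncomputable def Sm {n : ℕ} (k : ℕ) (η : T →L[ℝ] ℝ) (v : T) (p : X n × T) :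
    X n × T := (p.1, p.2 + ff n k (p.1, η p.2) • v)

lemma Am_Sm {n : ℕ} (k : ℕ) (η : T →L[ℝ] ℝ) (v : T) (hv : η v = 0) (g : SLn n)
    (p : X n × T) : Am k η v g (Sm k η v p) = Sm k η v (g.1 *ᵥ p.1, p.2) := by
  unfold Am Sm cc
  simp [hv, sub_smul, add_assoc]

lemma Am_one {n : ℕ} (k : ℕ) (η : T →L[ℝ] ℝ) (v : T) (p : X n × T) :
    Am k η v 1 p = p := by
  unfold Am; rw [cc_one]; simp

lemma Am_mul {n : ℕ} (k : ℕ) (η : T →L[ℝ] ℝ) (v : T) (hv : η v = 0) (g h : SLn n)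
    (p : X n × T) : Am k η v (g * h) p = Am k η v g (Am k η v h p) := by
  unfold Am; rw [cc_mul]
  simp [hv, add_smul, add_assoc, Matrix.mulVec_mulVec]

lemma Am_zero {n : ℕ} (k : ℕ) (η : T →L[ℝ] ℝ) (v : T) (g : SLn n) :
    Am k η v g 0 = 0 := by
  unfold Am
  have : ((0 : X n × T).1, η (0 : X n × T).2) = (0 : QQ n) := by simp
  rw [this, cc_zero]; simp

lemma continuous_Am {n : ℕ} {k : ℕ} (hk : 1 ≤ k) (η : T →L[ℝ] ℝ) (v : T) :
    Continuous fun p : SLn n × (X n × T) => Am k η v p.1 p.2 := by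
  have hf := continuous_ff n hk
  have hmul : Continuous fun p : SLn n × (X n × T) => (p.1.1 *ᵥ p.2.1 : X n) := by
    refine Continuous.matrix_mulVec ?_ (by fun_prop)
    exact continuous_subtype_val.comp continuous_fst
  unfold Am cc
  refine Continuous.prodMk hmul ?_
  refine Continuous.add (by fun_prop) (Continuous.smul ?_ continuous_const)
  refine Continuous.sub (hf.comp ?_) (hf.comp ?_)
  · simp only [gq_apply]
    exact hmul.prodMk (by fun_prop)
  · fun_prop

lemma continuous_Sm {n : ℕ} {k : ℕ} (hk : 1 ≤ k) (η : T →L[ℝ] ℝ) (v : T) :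
    Continuous (Sm (n := n) k η v) := by
  have hf := continuous_ff n hk
  unfold Sm
  fun_prop

lemma Sm_zero {n : ℕ} {k : ℕ} (hk : 1 ≤ k) (η : T →L[ℝ] ℝ) (v : T) :
    Sm (n := n) k η v 0 = 0 := by
  unfold Sm
  have : ((0 : X n × T).1, η (0 : X n × T).2) = (0 : QQ n) := by simp
  rw [this, ff_zero n hk]; simp

/-- The linear map `(x, τ) ↦ (gx, τ)`. -/
noncomputable def gT {n : ℕ} (g : SLn n) : (X n × T) →L[ℝ] (X n × T) :=
  ((LinearMap.toContinuousLinearMap (Matrix.mulVecLin g.1)).comp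
    (ContinuousLinearMap.fst ℝ (X n) T)).prod (ContinuousLinearMap.snd ℝ (X n) T)

@[simp] lemma gT_apply {n : ℕ} (g : SLn n) (q : X n × T) : gT g q = (g.1 *ᵥ q.1, q.2) := rfl

/-- The map `(x,τ) ↦ (x, η τ)`. -/
noncomputable def toQ (n : ℕ) (η : T →L[ℝ] ℝ) : (X n × T) →L[ℝ] QQ n :=
  (ContinuousLinearMap.fst ℝ (X n) T).prod (η.comp (ContinuousLinearMap.snd ℝ (X n) T))

lemma Am_eq {n : ℕ} (k : ℕ) (η : T →L[ℝ] ℝ) (v : T) (g : SLn n) :
    Am k η v g = fun p => gT g p + (0, cc n k g (toQ n η p) • v) := by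
  funext p
  unfold Am toQ
  simp

lemma contDiff_Am {n : ℕ} {k : ℕ} (hk : 1 ≤ k) (η : T →L[ℝ] ℝ) (v : T) (g : SLn n) :
    ContDiff ℝ k (Am k η v g) := by
  rw [Am_eq]
  refine (gT (T := T) g).contDiff.add (contDiff_const.prodMk ?_)
  refine ContDiff.smul ?_ contDiff_const
  exact (contDiff_cc n hk g).comp (toQ n η).contDiff

lemma hasFDerivAt_Am {n : ℕ} {k : ℕ} (hk : 1 ≤ k) (η : T →L[ℝ] ℝ) (v : T) (g : SLn n) :
    HasFDerivAt (Am k η v g) (gT g) 0 := by
  rw [Am_eq]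
  have h1 : HasFDerivAt (fun p : X n × T => cc n k g (toQ n η p)) (0 : (X n × T) →L[ℝ] ℝ) 0 := by
    have h := hasFDerivAt_cc n hk g
    have h0 : toQ n η 0 = 0 := map_zero _
    rw [← h0] at h
    have := h.comp (0 : X n × T) (toQ n η).hasFDerivAt
    rw [ContinuousLinearMap.zero_comp] at this
    exact this
  have h2 : HasFDerivAt (fun p : X n × T => cc n k g (toQ n η p) • v)
      (0 : (X n × T) →L[ℝ] T) 0 := by
    have := h1.smul_const v
    simpa using this
  have h3 : HasFDerivAt (fun p : X n × T => ((0 : X n), cc n k g (toQ n η p) • v))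
      (0 : (X n × T) →L[ℝ] (X n × T)) 0 := by
    have := (hasFDerivAt_const (0 : X n) (0 : X n × T)).prodMk h2
    refine this.congr_fderiv ?_
    ext <;> simp
  have h4 := ((gT (T := T) g).hasFDerivAt (x := 0)).add h3
  rw [add_zero] at h4
  exact h4

/-- The elementary matrices tend to `1`. -/
lemma exists_transvection {n : ℕ} {N : Set (SLn n)} (hN : N ∈ 𝓝 (1 : SLn n)) {i j : Fin n}
    (hij : i ≠ j) : ∃ t : ℝ, t ≠ 0 ∧ ∃ g ∈ N, g.1 = Matrix.transvection i j t := by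
  let γ : ℝ → SLn n := fun t => ⟨Matrix.transvection i j t, Matrix.det_transvection_of_ne i j hij t⟩
  have hγ : Continuous γ := by
    refine Continuous.subtype_mk ?_ _
    unfold Matrix.transvection
    refine continuous_const.add ?_
    refine continuous_matrix fun a b => ?_
    by_cases h : i = a ∧ j = b
    · simp only [Matrix.single, Matrix.of_apply, h, and_self, if_true]
      fun_prop
    · simp only [Matrix.single, Matrix.of_apply, h, if_false]
      fun_prop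
  have h0 : γ 0 = 1 := by
    apply Subtype.ext
    simp [γ]
  have hev : ∀ᶠ t in 𝓝 (0 : ℝ), γ t ∈ N := by
    apply hγ.continuousAt.eventually
    rw [h0]
    exact hN
  have h1 : ∀ᶠ t in 𝓝[≠] (0 : ℝ), γ t ∈ N := hev.filter_mono nhdsWithin_le_nhds
  have h2 : ∀ᶠ t in 𝓝[≠] (0 : ℝ), t ≠ 0 := self_mem_nhdsWithin
  obtain ⟨t, ht1, ht2⟩ := (h1.and h2).exists
  exact ⟨t, ht2, γ t, ht1, rfl⟩

/-- There is a diagonal matrix close to `1` contracting the `i`-th coordinate. -/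
lemma exists_diag {n : ℕ} {N : Set (SLn n)} (hN : N ∈ 𝓝 (1 : SLn n)) {i j : Fin n}
    (hij : i ≠ j) : ∃ t : ℝ, 0 < t ∧ t < 1 ∧ ∃ g ∈ N, ∀ s : ℝ,
      g.1 *ᵥ (Pi.single i s) = Pi.single i (t * s) := by
  let d : ℝ → Fin n → ℝ := fun t a => if a = i then t else if a = j then t⁻¹ else 1
  have hd : ∀ t : ℝ, t ≠ 0 → ∏ a, d t a = 1 := by
    intro t ht
    have hsub : ∏ a, d t a = ∏ a ∈ ({i, j} : Finset (Fin n)), d t a := by
      symm
      apply Finset.prod_subset (Finset.subset_univ _)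
      intro a _ ha
      simp only [Finset.mem_insert, Finset.mem_singleton, not_or] at ha
      simp [d, ha.1, ha.2]
    rw [hsub, Finset.prod_pair hij]
    simp [d, hij.symm, ht]
  let γ : ℝ → Matrix (Fin n) (Fin n) ℝ := fun t => Matrix.diagonal (d t)
  have hγ : ContinuousAt γ 1 := by
    have : ContinuousAt d 1 := by
      rw [continuousAt_pi]
      intro a
      by_cases h1 : a = i
      · simp only [d, h1, if_true]; exact continuousAt_id
      · by_cases h2 : a = j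
        · simp only [d, h2, if_true, if_neg hij.symm]
          exact continuousAt_inv₀ one_ne_zero
        · simp only [d, h1, h2, if_false]; exact continuousAt_const
    exact (Continuous.matrix_diagonal continuous_id).continuousAt.comp this
  have h1 : γ 1 = ((1 : SLn n) : Matrix (Fin n) (Fin n) ℝ) := by
    simp only [γ, Matrix.SpecialLinearGroup.coe_one]
    rw [← Matrix.diagonal_one]
    congr 1
    funext a
    simp [d]
  have hind : Topology.IsInducing ((↑) : SLn n → Matrix (Fin n) (Fin n) ℝ) :=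
    Matrix.SpecialLinearGroup.isClosedEmbedding_val.isInducing
  obtain ⟨U, hU, hUN⟩ := mem_comap.1 ((hind.nhds_eq_comap (1 : SLn n)).ge hN)
  have hev : ∀ᶠ t in 𝓝 (1 : ℝ), γ t ∈ U := by
    apply hγ.eventually
    rw [h1]
    exact hU
  have h2 : ∀ᶠ t in 𝓝[<] (1 : ℝ), γ t ∈ U := hev.filter_mono nhdsWithin_le_nhds
  have h3 : ∀ᶠ t in 𝓝[<] (1 : ℝ), t ∈ Ioo (0 : ℝ) 1 := Ioo_mem_nhdsLT one_pos
  obtain ⟨t, ht1, ht2⟩ := (h2.and h3).exists
  refine ⟨t, ht2.1, ht2.2, ⟨γ t, ?_⟩, hUN ht1, ?_⟩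
  · rw [Matrix.det_diagonal]; exact hd t ht2.1.ne'
  · intro s
    funext a
    simp only [γ]
    rw [Matrix.mulVec_diagonal]
    by_cases h : a = i
    · subst h; simp [d]
    · simp [Pi.single_eq_of_ne h]

end Pool.Agent.Q132.SLin
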