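import Mathlib
import Pool.Agent.Q132.SLin.Core

open Filter Topology Set Matrix

namespace Pool.Agent.Q132.SLin

variable {T : Type} [NormedAddCommGroup T] [NormedSpace ℝ T] [FiniteDimensional ℝ T]

omit [FiniteDimensional ℝ T] in
/-- The derivative of the `T`-component of a linearisation kills `ℝ^n`. -/
lemma fderiv_snd_kills {n : ℕ} (hn : 2 ≤ n) {k : ℕ} (hk : 1 ≤ k) (η : T →L[ℝ] ℝ) (v : T)
    {Φ : X n × T → T} (hΦ : DifferentiableAt ℝ Φ 0) {N : Set (SLn n)} (hN : N ∈ 𝓝 (1 : SLn n))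
    {V : Set (X n × T)} (hV : V ∈ 𝓝 (0 : X n × T))
    (hinv : ∀ g ∈ N, ∀ p ∈ V, Φ (Am k η v g p) = Φ p) (x : X n) :
    fderiv ℝ Φ 0 (x, 0) = 0 := by
  set D := fderiv ℝ Φ 0 with hD
  have hkey : ∀ g ∈ N, ∀ p : X n × T, D (gT g p) = D p := by
    intro g hg p
    have h1 : HasFDerivAt (fun p => Φ (Am k η v g p)) (D.comp (gT g)) 0 := by
      have h2 : HasFDerivAt Φ D (Am k η v g 0) := by rw [Am_zero]; exact hΦ.hasFDerivAt
      exact h2.comp 0 (hasFDerivAt_Am hk η v g)
    have h3 : HasFDerivAt (fun p => Φ (Am k η v g p)) D 0 := by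
      refine hΦ.hasFDerivAt.congr_of_eventuallyEq ?_
      filter_upwards [hV] with p hp
      exact hinv g hg p hp
    have := h1.unique h3
    have h4 := congrArg (fun L : (X n × T) →L[ℝ] T => L p) this
    simpa using h4
  have hbasis : ∀ i : Fin n, ∀ s : ℝ, D (Pi.single i s, 0) = 0 := by
    intro i s
    obtain ⟨j, hij⟩ : ∃ j : Fin n, i ≠ j := by
      have : Nontrivial (Fin n) := Fin.nontrivial_iff_two_le.2 hn
      obtain ⟨j, hj⟩ := exists_ne i
      exact ⟨j, hj.symm⟩
    obtain ⟨t, ht, g, hg, hgt⟩ := exists_transvection hN hij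
    have h1 := hkey g hg (Pi.single j (s / t), 0)
    have h2 : gT g ((Pi.single j (s / t), (0 : T)) : X n × T) =
        (Pi.single j (s / t), 0) + (Pi.single i s, 0) := by
      rw [gT_apply, hgt]
      simp only [Prod.mk_add_mk, add_zero]
      congr 1
      unfold Matrix.transvection
      rw [Matrix.add_mulVec, Matrix.one_mulVec]
      congr 1
      funext a
      by_cases ha : a = i
      · subst ha
        simp [Matrix.mulVec, dotProduct, Matrix.single, Pi.single_apply]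
        field_simp
      · simp [Matrix.mulVec, dotProduct, Matrix.single, Pi.single_apply, ha, Ne.symm ha]
    rw [h2, map_add] at h1
    simpa using h1
  have hx : ((x, 0) : X n × T) = ∑ i, ((Pi.single i (x i), 0) : X n × T) := by
    ext a
    · rw [Prod.fst_sum, Finset.sum_apply]
      simp [Pi.single_apply]
    · rw [Prod.snd_sum]; simp
  rw [hx, map_sum]
  exact Finset.sum_eq_zero fun i _ => hbasis i (x i)

/-- The model map is not `C^k`-linearisable, in a weak sense. -/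
theorem core {n : ℕ} (hn : 2 ≤ n) {k : ℕ} (hk : 1 ≤ k) (η : T →L[ℝ] ℝ) (v e : T)
    (hv : η v = 0) (hv0 : v ≠ 0) (he : η e = 1)
    {φ : X n × T → X n × T} (hφ : ContDiffAt ℝ k φ 0) (hφ0 : φ 0 = 0)
    (hsurj : Function.Surjective (fderiv ℝ φ 0)) {N : Set (SLn n)} (hN : N ∈ 𝓝 (1 : SLn n))
    {V : Set (X n × T)} (hV : V ∈ 𝓝 (0 : X n × T))
    (hinv : ∀ g ∈ N, ∀ p ∈ V, (φ (Am k η v g p)).2 = (φ p).2) : False := by
  have hk0 : ((k : ℕ) : WithTop ℕ∞) ≠ 0 := by
    exact_mod_cast (show k ≠ 0 by omega)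
  set Φ : X n × T → T := fun p => (φ p).2 with hΦdef
  have hΦ : ContDiffAt ℝ k Φ 0 := contDiff_snd.contDiffAt.comp (0 : X n × T) hφ
  have hΦd : DifferentiableAt ℝ Φ 0 := hΦ.differentiableAt hk0
  have hkill := fderiv_snd_kills hn hk η v hΦd hN hV hinv
  have hDΦ : fderiv ℝ Φ 0 = (ContinuousLinearMap.snd ℝ (X n) T).comp (fderiv ℝ φ 0) := by
    have h1 := (hφ.differentiableAt hk0).hasFDerivAt
    exact (h1.snd).fderiv
  -- the derivative in the `T` direction
  set DT : T →L[ℝ] T := (fderiv ℝ Φ 0).comp (ContinuousLinearMap.inr ℝ (X n) T) with hDT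
  have hDTsurj : Function.Surjective DT := by
    intro w
    obtain ⟨p, hp⟩ := hsurj (0, w)
    refine ⟨p.2, ?_⟩
    have h1 : fderiv ℝ Φ 0 p = w := by rw [hDΦ]; simp [hp]
    have h2 : p = (p.1, 0) + (0, p.2) := by simp
    rw [h2, map_add, hkill, zero_add] at h1
    simpa [hDT] using h1
  have hDTinj : Function.Injective DT :=
    (LinearMap.injective_iff_surjective (f := (DT : T →ₗ[ℝ] T))).2 hDTsurj
  let DE : T ≃L[ℝ] T :=
    (LinearEquiv.ofBijective (DT : T →ₗ[ℝ] T) ⟨hDTinj, hDTsurj⟩).toContinuousLinearEquiv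
  have hDE : (DE : T →L[ℝ] T) = DT := by
    ext w; rfl
  -- the restriction of `Φ` to `{0} × T`
  set θ : T → T := fun τ => Φ (0, τ) with hθ
  have hθc : ContDiffAt ℝ k θ 0 := by
    have h1 : ContDiffAt ℝ k Φ ((0 : X n), (0 : T)) := hΦ
    exact h1.comp (0 : T) (contDiffAt_const.prodMk contDiffAt_id)
  have hθd : HasFDerivAt θ (DE : T →L[ℝ] T) 0 := by
    rw [hDE]
    have h1 : HasFDerivAt Φ (fderiv ℝ Φ 0) ((0 : X n), (0 : T)) := hΦd.hasFDerivAt
    exact h1.comp (0 : T) (ContinuousLinearMap.inr ℝ (X n) T).hasFDerivAt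
  have hθ0 : θ 0 = 0 := by
    have : ((0 : X n), (0 : T)) = 0 := rfl
    simp only [hθ, hΦdef, this, hφ0]
    rfl
  -- neighbourhood where everything is fine
  have hW : V ∩ {p | ContDiffAt ℝ k Φ p} ∈ 𝓝 (0 : X n × T) := by
    refine inter_mem hV ?_
    exact hΦ.eventually (by simp)
  have hS := continuous_Sm (n := n) hk η v
  have hS0 : Sm (n := n) k η v 0 = 0 := Sm_zero hk η v
  have hpre : Sm k η v ⁻¹' (V ∩ {p | ContDiffAt ℝ k Φ p}) ∈ 𝓝 (0 : X n × T) := by
    apply hS.continuousAt.preimage_mem_nhds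
    rw [hS0]; exact hW
  obtain ⟨δ, hδ, hball⟩ := Metric.mem_nhds_iff.1 hpre
  have hmem : ∀ (x : X n) (τ : T), ‖x‖ < δ → ‖τ‖ < δ →
      Sm k η v (x, τ) ∈ V ∧ ContDiffAt ℝ k Φ (Sm k η v (x, τ)) := by
    intro x τ hx hτ
    apply hball
    rw [mem_ball_zero_iff, Prod.norm_def]
    exact max_lt hx hτ
  -- a contracting diagonal matrix
  obtain ⟨i, j, hij⟩ : ∃ i j : Fin n, i ≠ j := by
    have : Nontrivial (Fin n) := Fin.nontrivial_iff_two_le.2 hn
    exact exists_pair_ne _
  obtain ⟨t, ht0, ht1, g, hg, hgt⟩ := exists_diag hN hij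
  set Θ : X n × T → T := fun p => Φ (Sm k η v p) with hΘ
  have hnorm : ∀ s : ℝ, ‖(Pi.single i s : X n)‖ = |s| := by
    intro s
    rw [Pi.norm_single]; rfl
  have hstep : ∀ s : ℝ, ∀ τ : T, |s| < δ → ‖τ‖ < δ →
      Θ (Pi.single i (t * s), τ) = Θ (Pi.single i s, τ) := by
    intro s τ hs hτ
    have h1 := (hmem (Pi.single i s) τ (by rw [hnorm]; exact hs) hτ).1
    have h2 := hinv g hg _ h1
    rw [Am_Sm k η v hv] at h2
    simp only [hgt] at h2
    exact h2
  have hiter : ∀ l : ℕ, ∀ s : ℝ, ∀ τ : T, |s| < δ → ‖τ‖ < δ →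
      Θ (Pi.single i (t ^ l * s), τ) = Θ (Pi.single i s, τ) := by
    intro l
    induction l with
    | zero => intro s τ _ _; simp
    | succ l ih =>
      intro s τ hs hτ
      have h1 : |t ^ l * s| < δ := by
        rw [abs_mul, abs_of_nonneg (by positivity)]
        refine lt_of_le_of_lt ?_ hs
        exact mul_le_of_le_one_left (abs_nonneg _) (pow_le_one₀ ht0.le ht1.le)
      have h2 := hstep (t ^ l * s) τ h1 hτ
      rw [ih s τ hs hτ, ← mul_assoc, ← pow_succ'] at h2
      exact h2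
  have hlim : ∀ s : ℝ, ∀ τ : T, |s| < δ → ‖τ‖ < δ → Θ (Pi.single i s, τ) = Θ (0, τ) := by
    intro s τ hs hτ
    have h1 : Tendsto (fun l : ℕ => Θ (Pi.single i (t ^ l * s), τ)) atTop (𝓝 (Θ (0, τ))) := by
      have hc : ContinuousAt Θ (0, τ) := by
        have h3 := (hmem 0 τ (by simpa using hδ) hτ).2.continuousAt
        exact h3.comp hS.continuousAt
      have h4 : Tendsto (fun l : ℕ => ((Pi.single i (t ^ l * s), τ) : X n × T)) atTop
          (𝓝 (0, τ)) := by
        have h5 : Tendsto (fun l : ℕ => t ^ l * s) atTop (𝓝 0) := by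
          have := (tendsto_pow_atTop_nhds_zero_of_lt_one ht0.le ht1).mul_const s
          simpa using this
        have h6' : Continuous fun r : ℝ => (Pi.single i r : X n) := by
          refine continuous_pi fun a => ?_
          by_cases ha : a = i
          · subst ha; simp only [Pi.single_eq_same]; exact continuous_id
          · simpa [Pi.single_eq_of_ne ha] using continuous_const
        have h6 : Continuous fun r : ℝ => ((Pi.single i r, τ) : X n × T) :=
          h6'.prodMk continuous_const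
        have h7 := (h6.tendsto 0).comp h5
        rw [Pi.single_zero] at h7
        exact h7
      exact hc.tendsto.comp h4
    have h2 : (fun l : ℕ => Θ (Pi.single i (t ^ l * s), τ)) = fun _ => Θ (Pi.single i s, τ) := by
      funext l; exact hiter l s τ hs hτ
    rw [h2] at h1
    exact tendsto_nhds_unique tendsto_const_nhds h1
  -- choose a nonzero base point
  set s₀ : ℝ := δ / 2 with hs₀
  have hs₀pos : 0 < s₀ := by positivity
  have hs₀lt : |s₀| < δ := by rw [abs_of_pos hs₀pos, hs₀]; linarith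
  set x₀ : X n := Pi.single i s₀ with hx₀
  have hx₀ne : x₀ ≠ 0 := by
    rw [← norm_pos_iff, hx₀, hnorm]; exact abs_pos.2 hs₀pos.ne'
  -- the map `κ`
  have hκ : ContDiffAt ℝ k (fun τ : T => Θ (x₀, τ)) 0 := by
    have h1 := (hmem x₀ 0 (by rw [hx₀, hnorm]; exact hs₀lt) (by simpa using hδ)).2
    have h2 : ContDiffAt ℝ k (fun τ : T => Sm k η v (x₀, τ)) 0 := by
      unfold Sm
      refine contDiffAt_const.prodMk (contDiffAt_id.add (ContDiffAt.smul ?_ contDiffAt_const))
      have h3 : ContDiffAt ℝ k (ff n k) (x₀, η 0) := by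
        apply contDiffAt_ff
        intro h
        exact hx₀ne (congrArg Prod.fst h)
      exact h3.comp (0 : T) (contDiffAt_const.prodMk η.contDiff.contDiffAt)
    exact ContDiffAt.comp (g := Φ) (0 : T) h1 h2
  set ω : T → T := fun τ => τ + ff n k (0, η τ) • v with hω
  have hωc : Continuous ω := by
    have := continuous_ff n hk
    fun_prop
  have hω0 : ω 0 = 0 := by
    simp only [hω, map_zero]
    have : ff n k ((0 : X n), (0 : ℝ)) = 0 := ff_zero n hk
    rw [this]; simp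
  have hΘω : ∀ τ, Θ (0, τ) = θ (ω τ) := fun τ => rfl
  -- inverse function theorem
  set ι := hθc.localInverse hθd hk0 with hι
  have hιc : ContDiffAt ℝ k ι 0 := by
    have := hθc.to_localInverse hθd hk0
    rwa [hθ0] at this
  have hleft : ∀ᶠ w in 𝓝 (0 : T), ι (θ w) = w :=
    (hθc.hasStrictFDerivAt' hθd hk0).eventually_left_inverse
  have hleft' : ∀ᶠ τ in 𝓝 (0 : T), ι (θ (ω τ)) = ω τ := by
    have h1 := hωc.tendsto 0
    rw [hω0] at h1
    exact h1.eventually hleft
  have hωC : ContDiffAt ℝ k ω 0 := by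
    have h1 : ω =ᶠ[𝓝 0] fun τ => ι (Θ (x₀, τ)) := by
      filter_upwards [hleft', Metric.ball_mem_nhds (0 : T) hδ] with τ h2 h3
      rw [mem_ball_zero_iff] at h3
      rw [hlim s₀ τ hs₀lt h3, hΘω, h2]
    refine ContDiffAt.congr_of_eventuallyEq ?_ h1
    have h4 : Θ (x₀, 0) = 0 := by
      rw [hlim s₀ 0 hs₀lt (by simpa using hδ), hΘω, hω0, hθ0]
    have h5 : ContDiffAt ℝ k ι (Θ (x₀, 0)) := by rw [h4]; exact hιc
    exact h5.comp (0 : T) hκ
  -- restrict to the line through `e`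
  obtain ⟨ξ, hξ⟩ := SeparatingDual.exists_eq_one (R := ℝ) hv0
  have hfin : ContDiffAt ℝ k (fun s : ℝ => ff n k ((0 : X n), s)) 0 := by
    have h1 : ContDiffAt ℝ k (fun s : ℝ => ξ (ω (s • e) - s • e)) 0 := by
      have h2 : ContDiffAt ℝ k (fun s : ℝ => s • e) 0 := contDiffAt_id.smul contDiffAt_const
      have h3 : ContDiffAt ℝ k ω ((0 : ℝ) • e) := by rw [zero_smul]; exact hωC
      have h5 : ContDiffAt ℝ k (fun s : ℝ => ω (s • e)) 0 :=
        ContDiffAt.comp (g := ω) (0 : ℝ) h3 h2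
      exact ContDiffAt.comp (g := ξ) (0 : ℝ) ξ.contDiff.contDiffAt (h5.sub h2)
    have h4 : (fun s : ℝ => ξ (ω (s • e) - s • e)) = fun s : ℝ => ff n k ((0 : X n), s) := by
      funext s
      simp [hω, he, hξ]
    rw [h4] at h1
    exact h1
  exact not_contDiffAt_ff n hk hfin

end Pool.Agent.Q132.SLin
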